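import Pool.Agent.ANR.Stmts

/-!
# ANR, row GEQ: the Green function of a network
-/

set_option autoImplicit false

open scoped BigOperators ComplexConjugate

noncomputable section

namespace Pool.Agent.ANR.H72

open Pool.Agent.ANR

variable {X : Type} [Fintype X] [DecidableEq X]

/-- the matrix -/
def Mx (H : Matrix X X ℝ) (κ : X → ℝ) : Matrix X X ℂ :=
  H.map (fun t : ℝ => (t : ℂ)) - Matrix.diagonal fun x => Complex.I * (κ x : ℂ)

theorem opv_eq (H : Matrix X X ℝ) (κ : X → ℝ) (ψ : X → ℂ) (x : X) :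
    opv H κ ψ x = (Mx H κ).mulVec ψ x := by
  unfold opv Mx
  rw [Matrix.sub_mulVec, Pi.sub_apply, Matrix.mulVec_diagonal]
  rfl

theorem geq (hDIR : DirStmt) (hGRN : GrnStmt) : GeqStmt := by
  intro X _ _ H κ hN
  obtain ⟨g1, g2⟩ := hGRN X H κ hN
  have h1 : ∀ y : X, ∃ ψ : X → ℂ, ∀ x, opv H κ ψ x = if x = y then 1 else 0 := by
    intro y
    obtain ⟨ψ, hψ, _⟩ := hDIR X H κ ∅ hN 0 (fun x => if x = y then 1 else 0)
    exact ⟨ψ, fun x => hψ.2 x (by simp)⟩
  choose g hg using h1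
  have h2 : Mx H κ * Matrix.of (fun z y => g y z) = 1 := by
    ext x y
    have h3 := hg y x
    rw [opv_eq] at h3
    rw [Matrix.mul_apply, Matrix.one_apply, ← h3]
    rfl
  have h3 : Gr H κ = Matrix.of (fun z y => g y z) := by
    unfold Gr
    exact Matrix.inv_eq_right_inv h2
  have h4 : ∀ x y, Gr H κ x y = g y x := fun x y => by rw [h3]; rfl
  have e1 : ∀ x y, opv H κ (fun z => Gr H κ z y) x = if x = y then 1 else 0 := by
    intro x y
    have h5 : (fun z => Gr H κ z y) = g y := by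
      funext z
      exact h4 z y
    rw [h5]
    exact hg y x
  have e2 : ∀ x y, Gr H κ x y = Gr H κ y x := by
    intro x y
    have h5 := g1 (fun z => Gr H κ z x) (fun z => Gr H κ z y)
    simp only [e1] at h5
    simpa using h5.symm
  have e3 : ∀ y, ∑ z, κ z * ‖Gr H κ z y‖ ^ 2 = (Gr H κ y y).im := by
    intro y
    have h5 := g2 (fun z => Gr H κ z y)
    simp only [e1] at h5
    have h6 : (∑ x, conj (Gr H κ x y) * (if x = y then (1 : ℂ) else 0)) = conj (Gr H κ y y) := by
      simp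
    rw [h6, Complex.conj_im] at h5
    linarith
  have hp : ∀ z, 0 ≤ κ z := fun z => (hN.pos z).le
  have e4 : ∀ x y, κ x * ‖Gr H κ x y‖ ^ 2 ≤ (Gr H κ y y).im := by
    intro x y
    rw [← e3 y]
    exact Finset.single_le_sum (f := fun z => κ z * ‖Gr H κ z y‖ ^ 2)
      (fun z _ => mul_nonneg (hp z) (by positivity)) (Finset.mem_univ x)
  have e5 : ∀ y, (Gr H κ y y).im ≤ ‖Gr H κ y y‖ := fun y =>
    (le_abs_self _).trans (Complex.abs_im_le_norm _)
  have e6 : ∀ y, κ y * ‖Gr H κ y y‖ ≤ 1 := by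
    intro y
    have h5 := (e4 y y).trans (e5 y)
    rcases (norm_nonneg (Gr H κ y y)).eq_or_lt with h0 | h0
    · rw [← h0]; simp
    · by_contra hcon
      push Not at hcon
      nlinarith
  refine ⟨e1, e2, e3, e6, ?_⟩
  intro x y
  have h5 := (e4 x y).trans (e5 y)
  have h6 := mul_le_mul_of_nonneg_left h5 (hp y)
  have h7 := e6 y
  nlinarith

end Pool.Agent.ANR.H72
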